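import Pool.Agent.Y360.CH.Order

/-!
# Optimal-order `C_h[g]`-sets in intervals for all `g ≥ (h - 1)! + 1`

For `h ≥ 2` and `g ≥ (h - 1)! + 1` there is `c > 0` such that for all large `n` the interval
`{1, ..., n}` contains a `C_h[g]`-set with at least `c n ^ (1 - 1 / h)` elements. Moreover for every
prime `p` there is a `C_h[(h - 1)! + 1]`-set of `p ^ (h - 1) - 1` elements in
`{1, ..., (2 p) ^ (h - 1) (p - 1)}`, hence of `(1 + o(1)) (n / 2 ^ (h - 1)) ^ (1 - 1 / h)` elements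
for `n = (2 p) ^ (h - 1) (p - 1)`.
-/

set_option autoImplicit false

open Nat

namespace Pool.Agent.Results.MP_7f687a_co.ProjectiveNormSets

/-- `A` is a `C_h[g]`-set: there are no `h`-element set `X` of integers and `g` distinct integers
`k` (forming the set `L`) such that every translate `X + k` is contained in `A`. -/
def IsCSet (h g : ℕ) (A : Finset ℤ) : Prop :=
  ¬ ∃ X L : Finset ℤ, X.card = h ∧ L.card = g ∧ ∀ x ∈ X, ∀ k ∈ L, x + k ∈ A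

/-- optimal-order `C_h[g]`-sets exist -/
def OptimalOrder (h g : ℕ) : Prop :=
  ∃ c : ℝ, 0 < c ∧ ∃ n₀ : ℕ, ∀ n : ℕ, n₀ ≤ n → ∃ A : Finset ℤ,
    (∀ a ∈ A, 1 ≤ a ∧ a ≤ (n : ℤ)) ∧ IsCSet h g A ∧ c * (n : ℝ) ^ (1 - 1 / (h : ℝ)) ≤ A.card

theorem result :
    (∀ h g : ℕ, 2 ≤ h → (h - 1)! < g → OptimalOrder h g) ∧
    ∀ p h : ℕ, p.Prime → 2 ≤ h → ∃ A : Finset ℤ,
      (∀ a ∈ A, 1 ≤ a ∧ a ≤ (((2 * p) ^ (h - 1) * (p - 1) : ℕ) : ℤ)) ∧
      IsCSet h ((h - 1)! + 1) A ∧ A.card = p ^ (h - 1) - 1 := by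
  constructor
  · intro h g hh hg
    obtain ⟨m, rfl⟩ : ∃ m, h = m + 1 := ⟨h - 1, by omega⟩
    rw [Nat.add_sub_cancel] at hg
    obtain ⟨c, hc, n₀, h1⟩ := Pool.Agent.Y360.CH.optimal m (by omega)
    refine ⟨c, hc, n₀, fun n hn => ?_⟩
    obtain ⟨A, hA1, hA2, hA3⟩ := h1 n hn
    refine ⟨A, hA1, ?_, hA3⟩
    rintro ⟨X, L, hX, hL, hXL⟩
    have := hA2 X L hX hXL
    omega
  · intro p h hp hh
    obtain ⟨m, rfl⟩ : ∃ m, h = m + 1 := ⟨h - 1, by omega⟩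
    rw [Nat.add_sub_cancel]
    have : Fact p.Prime := ⟨hp⟩
    obtain ⟨A, hA1, hA2, hA3⟩ := Pool.Agent.Y360.CH.exists_set p m (by omega)
    refine ⟨A, ?_, ?_, hA2⟩
    · intro a ha
      refine ⟨(hA1 a ha).1, (hA1 a ha).2.trans (le_of_eq ?_)⟩
      push_cast [Nat.cast_sub hp.one_lt.le]
      ring
    · rintro ⟨X, L, hX, hL, hXL⟩
      have := hA3 X L hX hXL
      omega

end Pool.Agent.Results.MP_7f687a_co.ProjectiveNormSets
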